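import Pool.Agent.Q204.RF.Close

set_option autoImplicit false

/-!
A `Pi^1_1`-sound, `Pi^1_1`-definable extension of `Sigma^1_1-AC_0` that proves its own
`Pi^1_1`-soundness.

The language `L_2`, its two-sorted structures, satisfaction, provability, `ACA_0`, Goedel numbers
and the classes `Pi^1_1` and `Sigma^1_1` are defined in `Pool/Agent/H986R3/SOADefs.lean`;
`Sigma^1_1-AC_0`, arithmetizations, the provability predicate, the reflection sentence and
`Pi^1_1`-definability in `Pool/Agent/Q204/RF/Defs.lean`.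

Idea of the proof. Let `σ` be an arithmetical definition of `S = Sigma^1_1-AC_0` and let `R` be the
`Pi^1_1`-reflection sentence for `σ`; `S + R` is true. By diagonalization there is a `Pi^1_1`
sentence `γ` saying: for no false `Pi^1_1` sentence `π` does `S + R` prove `γ ∨ π`. It is true.
Hence `T = S + (R ∧ ¬ γ)` is `Pi^1_1`-sound. The `Pi^1_1` formula
`τ(x) = σ(x) ∨ (x = ⌜R ∧ ¬ γ⌝ ∧ γ)` defines `T` since `γ` is true; but `T` proves `¬ γ`, so `T`
proves that `τ` and `σ` define the same theory, and `T` proves `R`.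
-/

namespace Pool.Agent.Results.MP_51f008_lc.Pi11DefinableTheory

open Pool.Agent.H986R3.SOA Q204.RF

/-- Arithmetizations of the metamathematics of `L_2` that are correct in the standard model exist,
and for every one of them there is a theory `T`, containing `Sigma^1_1-AC_0`, that is
`Pi^1_1`-sound, is defined by a `Pi^1_1` formula `τ`, and proves the `Pi^1_1`-reflection sentence
`∀ φ ∈ Pi^1_1 (Pr_τ(φ) → True(φ))`. -/
theorem result :
    Nonempty StdArithmetization ∧
    ∀ 𝒜 : StdArithmetization, ∃ (T : Set Fm) (τ : Fm),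
      (∀ ψ ∈ T, ψ.IsSentence) ∧ SigmaAC0 ⊆ T ∧ (∀ φ, SigmaAC φ → Proves T φ) ∧
      Pi11Sound T ∧ Pi11Defines τ T ∧ Proves T (𝒜.reflection τ) := by
  refine ⟨exists_arithmetization, fun 𝒜 => ?_⟩
  obtain ⟨T, τ, h1, h2, h3, h4, h5⟩ := main 𝒜
  exact ⟨T, τ, h2, h1, fun φ h => proves_axioms h1 φ h, h3, h4, h5⟩

end Pool.Agent.Results.MP_51f008_lc.Pi11DefinableTheory
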